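import Pool.Agent.Lib.MP_b09185_nt.ShVin
import Pool.Agent.Lib.MP_b09185_nt.VinZero
import Pool.Agent.Lib.MP_b09185_nt.ShAll

namespace Pool.Agent.Results.MP_b09185_nt.AlmostAll

open Filter MeasureTheory

theorem result (t : ℝ) (ht : 1 / 9 < t) (ht1 : t < 1) (ε δ : ℝ) (hε : 0 < ε) (hδ : 0 < δ) :
    ∀ᶠ X : ℝ in atTop,
      volume {x : ℝ | x ∈ Set.Icc X (2 * X) ∧ ε < |Real.log x / x ^ t *
        ((Nat.primeCounting ⌊x + x ^ t⌋₊ : ℝ) - (Nat.primeCounting ⌊x⌋₊ : ℝ)) - 1|} ≤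
      ENNReal.ofReal (δ * X) :=
  Pool.Agent.Lib.MP_b09185_nt.Sh.almost_all Pool.Agent.Lib.MP_b09185_nt.Sh.dens
    Pool.Agent.Lib.MP_b09185_nt.Vin.zf Pool.Agent.Lib.MP_b09185_nt.Sh.pt ht ht1 hε hδ

end Pool.Agent.Results.MP_b09185_nt.AlmostAll
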