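import Pool.Agent.Lib.MP_b09185_nt.ShVin
import Pool.Agent.Lib.MP_b09185_nt.VinZero

namespace Pool.Agent.Results.MP_b09185_nt.ShortIntervals

open Filter

theorem result (t : ℝ) (ht : 5 / 9 < t) (ε : ℝ) (hε : 0 < ε) :
    ∀ᶠ x : ℝ in atTop, ∀ h : ℝ, x ^ t ≤ h → h ≤ x →
      |Real.log x / h * ((Nat.primeCounting ⌊x + h⌋₊ : ℝ) - (Nat.primeCounting ⌊x⌋₊ : ℝ)) - 1|
        ≤ ε :=
  Pool.Agent.Lib.MP_b09185_nt.Sh.short_of Pool.Agent.Lib.MP_b09185_nt.Sh.dens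
    Pool.Agent.Lib.MP_b09185_nt.Vin.zf ht ε hε

end Pool.Agent.Results.MP_b09185_nt.ShortIntervals
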