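import Mathlib
import Pool.Agent.Lib.MP_b09185_nt.MaiWin
import Pool.Agent.Lib.MP_b09185_nt.MaiNum

namespace Pool.Agent.Results.MP_b09185_nt.Window

open Pool.Agent.Lib.MP_b09185_nt.Mai Filter

noncomputable def ratio (a x : ℝ) : EReal :=
  ((Real.log x / Real.log x ^ a *
    ((Nat.primeCounting ⌊x + Real.log x ^ a⌋₊ : ℝ) - (Nat.primeCounting ⌊x⌋₊ : ℝ)) : ℝ) : EReal)

theorem result :
    (∀ α u a : ℝ, 0 < α → α ≤ 1 → 0 < a → a ≤ u →
      liminf (ratio a) atTop ≤ (EW α u : EReal) ∧ (EW α u : EReal) ≤ limsup (ratio a) atTop) ∧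
    ∀ a : ℝ, 0 < a →
      (a ≤ 3 / 2 → ((1.31 : ℝ) : EReal) ≤ limsup (ratio a) atTop) ∧
      (a ≤ 2 → ((1.08 : ℝ) : EReal) ≤ limsup (ratio a) atTop) ∧
      (a ≤ 5 / 2 → liminf (ratio a) atTop ≤ ((0.968 : ℝ) : EReal)) ∧
      (a ≤ 3 → liminf (ratio a) atTop ≤ ((0.9958 : ℝ) : EReal)) ∧
      (a ≤ 7 / 2 → ((1.0018 : ℝ) : EReal) ≤ limsup (ratio a) atTop) := by
  have H : ∀ α u a : ℝ, 0 < α → α ≤ 1 → 0 < a → a ≤ u →
      liminf (ratio a) atTop ≤ (EW α u : EReal) ∧ (EW α u : EReal) ≤ limsup (ratio a) atTop :=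
    fun _ _ _ h0 h1 ha hau => ⟨liminf_le_of fun _ hε => window_lower h0 h1 ha hau hε,
      le_limsup_of fun _ hε => window_upper h0 h1 ha hau hε⟩
  refine ⟨H, fun a ha => ⟨fun h => ?_, fun h => ?_, fun h => ?_, fun h => ?_, fun h => ?_⟩⟩
  · exact le_trans (EReal.coe_le_coe_iff.2 (by linarith [num1]))
      (H (7 / 40) _ a (by norm_num) (by norm_num) ha h).2
  · exact le_trans (EReal.coe_le_coe_iff.2 (by linarith [num2]))
      (H (2 / 5) _ a (by norm_num) (by norm_num) ha h).2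
  · exact (H (7 / 25) _ a (by norm_num) (by norm_num) ha h).1.trans
      (EReal.coe_le_coe_iff.2 (by linarith [num3]))
  · exact (H (1 / 2) _ a (by norm_num) (by norm_num) ha h).1.trans
      (EReal.coe_le_coe_iff.2 (by linarith [num4]))
  · exact le_trans (EReal.coe_le_coe_iff.2 (by linarith [num5]))
      (H (19 / 50) _ a (by norm_num) (by norm_num) ha h).2

end Pool.Agent.Results.MP_b09185_nt.Window
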