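import Pool.Agent.Lib.MP_b09185_nt.ShVin

namespace Pool.Agent.Results.MP_b09185_nt.ZeroDensity

theorem result (A : ℝ) (hA : 9 / 4 < A) : ∃ B C : ℝ, ∀ T σ : ℝ, 3 ≤ T → 1 / 2 ≤ σ → σ ≤ 1 →
    ∀ S : Finset ℂ, (∀ ρ ∈ S, σ ≤ ρ.re ∧ 0 < ρ.im ∧ ρ.im ≤ T) →
      ∑ ρ ∈ S, (analyticOrderNatAt riemannZeta ρ : ℝ) ≤
        C * T ^ (A * (1 - σ)) * Real.log T ^ B :=
  Pool.Agent.Lib.MP_b09185_nt.Sh.zd_of Pool.Agent.Lib.MP_b09185_nt.Sh.dens hA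

end Pool.Agent.Results.MP_b09185_nt.ZeroDensity
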